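import Mathlib

open scoped ENNReal
open Finset

namespace Pool.Agent.Results.MP_600649_an.RittOptimal

/-- The Ritt constant `C(T) = sup_{|z| > 1} ‖(z - 1) (z - T)⁻¹‖`, as an extended nonnegative real. -/
noncomputable def rittConst {X : Type} [NormedAddCommGroup X] [NormedSpace ℂ X] (T : X →L[ℂ] X) : ℝ≥0∞ :=
  ⨆ (z : ℂ) (_ : 1 < ‖z‖), ENNReal.ofReal ‖(z - 1) • resolvent T z‖

/-- `φ(C)`: the supremum of `sup_n ‖T ^ n‖` over all complex Banach spaces `X` and all bounded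
operators `T` on `X` with spectrum in the closed unit disc and `C(T) ≤ C`. -/
noncomputable def phi (C : ℝ) : ℝ≥0∞ :=
  ⨆ (X : Type) (_ : NormedAddCommGroup X) (_ : NormedSpace ℂ X) (_ : CompleteSpace X)
    (T : X →L[ℂ] X) (_ : spectrum ℂ T ⊆ Metric.closedBall 0 1)
    (_ : rittConst T ≤ ENNReal.ofReal C), ⨆ n : ℕ, ENNReal.ofReal ‖T ^ n‖

/-- `φ_fin(C)`: the same supremum over finite-dimensional complex normed spaces only. -/
noncomputable def phiFin (C : ℝ) : ℝ≥0∞ :=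
  ⨆ (X : Type) (_ : NormedAddCommGroup X) (_ : NormedSpace ℂ X) (_ : FiniteDimensional ℂ X)
    (T : X →L[ℂ] X) (_ : spectrum ℂ T ⊆ Metric.closedBall 0 1)
    (_ : rittConst T ≤ ENNReal.ofReal C), ⨆ n : ℕ, ENNReal.ofReal ‖T ^ n‖

lemma le_phiFin {V : Type} [AddCommGroup V] [Module ℂ V] [FiniteDimensional ℂ V]
    {F : Type*} [NormedAddCommGroup F] [NormedSpace ℂ F] (Φ : V →ₗ[ℂ] F)
    (hΦ : Function.Injective Φ) (S : V →ₗ[ℂ] V) (C : ℝ) (hC : 0 ≤ C) (R : ℂ → V →ₗ[ℂ] V)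
    (h1 : ∀ z : ℂ, 1 < ‖z‖ → (z • (1 : V →ₗ[ℂ] V) - S) * R z = 1)
    (h2 : ∀ z : ℂ, 1 < ‖z‖ → R z * (z • (1 : V →ₗ[ℂ] V) - S) = 1)
    (hb : ∀ z : ℂ, 1 < ‖z‖ → ∀ v, ‖Φ ((z-1) • R z v)‖ ≤ C * ‖Φ v‖)
    (v : V) (hv : ‖Φ v‖ ≤ 1) (k : ℕ) : ENNReal.ofReal ‖Φ ((S^k) v)‖ ≤ phiFin C := by
  let _ : NormedAddCommGroup V := NormedAddCommGroup.induced V F Φ hΦ
  let _ : NormedSpace ℂ V := NormedSpace.induced ℂ V F Φ
  have hn : ∀ x : V, ‖x‖ = ‖Φ x‖ := fun x => rfl
  let T : V →L[ℂ] V := LinearMap.toContinuousLinearMap S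
  have hTk : ∀ k x, (T ^ k) x = (S ^ k) x := by
    intro k
    induction k with
    | zero => intro x; simp
    | succ n ih => intro x; rw [pow_succ, pow_succ]; simp [ih]; rfl
  let Rc : ℂ → V →L[ℂ] V := fun z => LinearMap.toContinuousLinearMap (R z)
  have hu1 : ∀ z : ℂ, 1 < ‖z‖ → (algebraMap ℂ (V →L[ℂ] V) z - T) * Rc z = 1 := by
    intro z hz
    ext x
    have := congrArg (fun f : V →ₗ[ℂ] V => f x) (h1 z hz)
    simpa [T, Rc, Algebra.algebraMap_eq_smul_one] using this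
  have hu2 : ∀ z : ℂ, 1 < ‖z‖ → Rc z * (algebraMap ℂ (V →L[ℂ] V) z - T) = 1 := by
    intro z hz
    ext x
    have := congrArg (fun f : V →ₗ[ℂ] V => f x) (h2 z hz)
    simpa [T, Rc, Algebra.algebraMap_eq_smul_one] using this
  have hres : ∀ z : ℂ, 1 < ‖z‖ → resolvent T z = Rc z := by
    intro z hz
    unfold resolvent
    have : Ring.inverse ((⟨_, _, hu1 z hz, hu2 z hz⟩ : (V →L[ℂ] V)ˣ) : V →L[ℂ] V) = Rc z := by
      rw [Ring.inverse_unit]; rfl
    exact this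
  have hspec : spectrum ℂ T ⊆ Metric.closedBall 0 1 := by
    intro z hz
    by_contra hcon
    rw [mem_closedBall_zero_iff, not_le] at hcon
    exact hz ⟨⟨_, _, hu1 z hcon, hu2 z hcon⟩, rfl⟩
  have hritt : rittConst T ≤ ENNReal.ofReal C := by
    refine iSup₂_le fun z hz => ?_
    rw [hres z hz]
    apply ENNReal.ofReal_le_ofReal
    refine ContinuousLinearMap.opNorm_le_bound _ hC fun x => ?_
    exact hb z hz x
  have hfin : ENNReal.ofReal ‖Φ ((S^k) v)‖ ≤ ENNReal.ofReal ‖T ^ k‖ := by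
    apply ENNReal.ofReal_le_ofReal
    rw [← hTk, ← hn]
    calc ‖(T^k) v‖ ≤ ‖T^k‖ * ‖v‖ := (T^k).le_opNorm v
      _ ≤ ‖T^k‖ * 1 := by gcongr; exact hv
      _ = ‖T^k‖ := mul_one _
  exact le_iSup_of_le V (le_iSup_of_le (NormedAddCommGroup.induced V F Φ hΦ)
    (le_iSup_of_le (NormedSpace.induced ℂ V F Φ) (le_iSup_of_le ‹FiniteDimensional ℂ V›
      (le_iSup_of_le T (le_iSup_of_le hspec (le_iSup_of_le hritt (le_iSup_of_le k hfin)))))))

lemma abel_bound (A : ℝ) (c : ℕ → ℂ) (b : ℕ → ℝ) (hb : Antitone b) (hb0 : ∀ k, 0 ≤ b k)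
    (p : ℕ) (hc : ∀ q ≤ p, ‖∑ i ∈ range q, c i‖ ≤ A) :
    ‖∑ i ∈ range p, (b i : ℂ) * c i‖ ≤ A * b 0 := by
  have hA : 0 ≤ A := by simpa using hc 0 (Nat.zero_le _)
  rcases Nat.eq_zero_or_pos p with rfl | hp
  · simpa using mul_nonneg hA (hb0 0)
  have h := Finset.sum_range_by_parts (fun i => (b i : ℂ)) c p
  simp only [smul_eq_mul] at h
  rw [h]
  calc ‖(b (p - 1) : ℂ) * ∑ i ∈ range p, c i -
        ∑ i ∈ range (p - 1), ((b (i + 1) : ℂ) - b i) * ∑ i ∈ range (i + 1), c i‖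
      ≤ ‖(b (p - 1) : ℂ) * ∑ i ∈ range p, c i‖ +
        ‖∑ i ∈ range (p - 1), ((b (i + 1) : ℂ) - b i) * ∑ i ∈ range (i + 1), c i‖ := norm_sub_le _ _
    _ ≤ b (p - 1) * A + ∑ i ∈ range (p - 1), (b i - b (i + 1)) * A := by
        gcongr
        · rw [norm_mul, Complex.norm_real, Real.norm_of_nonneg (hb0 _)]
          gcongr
          · exact hb0 _
          · exact hc p le_rfl
        · refine (norm_sum_le _ _).trans (Finset.sum_le_sum fun i hi => ?_)
          rw [norm_mul]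
          have h1 : ‖(b (i + 1) : ℂ) - b i‖ = b i - b (i + 1) := by
            rw [← Complex.ofReal_sub, Complex.norm_real, Real.norm_eq_abs, abs_sub_comm,
              abs_of_nonneg (sub_nonneg.2 (hb (Nat.le_succ i)))]
          rw [h1]
          gcongr
          · exact sub_nonneg.2 (hb (Nat.le_succ i))
          · refine hc _ ?_
            have := Finset.mem_range.1 hi
            omega
    _ = A * b 0 := by
        rw [← Finset.sum_mul, Finset.sum_range_sub']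
        ring

lemma geom_bound (w : ℂ) (hw : ‖w‖ ≤ 1) (hw1 : 0 < ‖1 - w‖) (q : ℕ) :
    ‖∑ i ∈ range q, w ^ i‖ ≤ 2 / ‖1 - w‖ := by
  rw [le_div_iff₀ hw1, ← norm_mul, geom_sum_mul_neg]
  calc ‖1 - w ^ q‖ ≤ ‖(1:ℂ)‖ + ‖w ^ q‖ := norm_sub_le _ _
    _ ≤ 1 + 1 := by
        gcongr
        · simp
        · rw [norm_pow]; exact pow_le_one₀ (norm_nonneg _) hw
    _ = 2 := by norm_num

lemma one_sub_pow_bound (w : ℂ) (hw : ‖w‖ ≤ 1) (q : ℕ) : ‖1 - w ^ q‖ ≤ q * ‖1 - w‖ := by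
  rw [← geom_sum_mul_neg, norm_mul]
  gcongr
  refine (norm_sum_le _ _).trans ?_
  calc ∑ i ∈ range q, ‖w ^ i‖ ≤ ∑ i ∈ range q, (1:ℝ) := by
        gcongr with i hi
        rw [norm_pow]; exact pow_le_one₀ (norm_nonneg _) hw
    _ = q := by simp

/-- Fejer's bounded polynomials. -/
lemma fejer_bound (w : ℂ) (hw : ‖w‖ ≤ 1) (p : ℕ) :
    ‖∑ i ∈ range p, ((1 / ((i : ℝ) + 1) : ℝ) : ℂ) * (w ^ (p - (i + 1)) - w ^ (p + (i + 1)))‖ ≤ 6 := by
  have hterm : ∀ i < p, ‖((1 / ((i : ℝ) + 1) : ℝ) : ℂ) * (w ^ (p - (i + 1)) - w ^ (p + (i + 1)))‖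
      ≤ 2 * ‖1 - w‖ := by
    intro i hi
    have h1 : w ^ (p + (i + 1)) = w ^ (p - (i + 1)) * w ^ (2 * (i + 1)) := by
      rw [← pow_add]; congr 1; omega
    rw [norm_mul, h1, show w ^ (p - (i + 1)) - w ^ (p - (i + 1)) * w ^ (2 * (i + 1))
      = w ^ (p - (i + 1)) * (1 - w ^ (2 * (i + 1))) by ring, norm_mul, norm_pow,
      Complex.norm_real, Real.norm_of_nonneg (by positivity)]
    have h2 : ‖w‖ ^ (p - (i + 1)) ≤ 1 := pow_le_one₀ (norm_nonneg _) hw
    have h3 := one_sub_pow_bound w hw (2 * (i + 1))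
    have h4 : (0:ℝ) < (i : ℝ) + 1 := by positivity
    calc 1 / ((i : ℝ) + 1) * (‖w‖ ^ (p - (i + 1)) * ‖1 - w ^ (2 * (i + 1))‖)
        ≤ 1 / ((i : ℝ) + 1) * (1 * (((2 * (i + 1) : ℕ) : ℝ) * ‖1 - w‖)) := by gcongr
      _ = 2 * ‖1 - w‖ := by push_cast; field_simp
  rcases (norm_nonneg (1 - w)).eq_or_lt with h0 | hpos
  · refine (norm_sum_le _ _).trans ?_
    calc _ ≤ ∑ i ∈ range p, 2 * ‖1 - w‖ :=
          Finset.sum_le_sum fun i hi => hterm i (Finset.mem_range.1 hi)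
      _ ≤ 6 := by rw [← h0]; simp
  · set d := ‖1 - w‖ with hd
    set q := ⌊1 / d⌋₊ with hq
    have hqle : (q : ℝ) ≤ 1 / d := Nat.floor_le (by positivity)
    have hqlt : 1 / d < (q : ℝ) + 1 := Nat.lt_floor_add_one _
    rcases le_total p q with hpq | hpq
    · refine (norm_sum_le _ _).trans ?_
      calc _ ≤ ∑ i ∈ range p, 2 * d :=
            Finset.sum_le_sum fun i hi => hterm i (Finset.mem_range.1 hi)
        _ = p * (2 * d) := by simp
        _ ≤ (1 / d) * (2 * d) := by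
            gcongr
            exact (Nat.cast_le.2 hpq).trans hqle
        _ = 2 := by field_simp
        _ ≤ 6 := by norm_num
    · obtain ⟨s, rfl⟩ := Nat.exists_eq_add_of_le hpq
      rw [Finset.sum_range_add]
      refine (norm_add_le _ _).trans ?_
      have e1 : ‖∑ x ∈ range q, ((1 / ((x : ℝ) + 1) : ℝ) : ℂ) *
          (w ^ (q + s - (x + 1)) - w ^ (q + s + (x + 1)))‖ ≤ 2 := by
        refine (norm_sum_le _ _).trans ?_
        calc _ ≤ ∑ i ∈ range q, 2 * d :=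
              Finset.sum_le_sum fun i hi => hterm i (by have := Finset.mem_range.1 hi; omega)
          _ = q * (2 * d) := by simp
          _ ≤ (1 / d) * (2 * d) := by gcongr
          _ = 2 := by field_simp
      have e2 : ‖∑ x ∈ range s, ((1 / (((q + x : ℕ) : ℝ) + 1) : ℝ) : ℂ) *
          (w ^ (q + s - (q + x + 1)) - w ^ (q + s + (q + x + 1)))‖ ≤ 4 / d * (1 / (((q + 0 : ℕ) : ℝ) + 1)) := by
        refine abel_bound (4 / d) (fun x => w ^ (q + s - (q + x + 1)) - w ^ (q + s + (q + x + 1)))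
          (fun x => 1 / (((q + x : ℕ) : ℝ) + 1)) ?_ ?_ s ?_
        · intro x y hxy
          simp only
          gcongr
        · intro k; positivity
        · intro t ht
          rw [Finset.sum_sub_distrib]
          have g1 : ∑ x ∈ range t, w ^ (q + s - (q + x + 1)) = w ^ (s - t) * ∑ x ∈ range t, w ^ x := by
            rw [← Finset.sum_range_reflect (fun x => w ^ x), Finset.mul_sum]
            refine Finset.sum_congr rfl fun x hx => ?_
            rw [← pow_add]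
            congr 1
            have := Finset.mem_range.1 hx
            omega
          have g2 : ∑ x ∈ range t, w ^ (q + s + (q + x + 1)) = w ^ (q + s + q + 1) * ∑ x ∈ range t, w ^ x := by
            rw [Finset.mul_sum]
            refine Finset.sum_congr rfl fun x hx => ?_
            rw [← pow_add]
            congr 1
            omega
          have g3 := geom_bound w hw hpos t
          have g4 : ∀ r, ‖w ^ r * ∑ x ∈ range t, w ^ x‖ ≤ 2 / d := by
            intro r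
            rw [norm_mul, norm_pow]
            calc ‖w‖ ^ r * ‖∑ x ∈ range t, w ^ x‖ ≤ 1 * (2 / d) := by
                  gcongr
                  exact pow_le_one₀ (norm_nonneg _) hw
              _ = 2 / d := one_mul _
          rw [g1, g2]
          calc _ ≤ 2 / d + 2 / d := (norm_sub_le _ _).trans (add_le_add (g4 _) (g4 _))
            _ = 4 / d := by ring
      have e3 : 4 / d * (1 / (((q + 0 : ℕ) : ℝ) + 1)) ≤ 4 := by
        have : 1 / (((q + 0 : ℕ) : ℝ) + 1) ≤ d := by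
          rw [div_le_iff₀ (by positivity)]
          have := (div_lt_iff₀ hpos).1 hqlt
          push_cast
          linarith
        calc 4 / d * (1 / (((q + 0 : ℕ) : ℝ) + 1)) ≤ 4 / d * d := by gcongr
          _ = 4 := by field_simp
      linarith

/-- the sequence -/
noncomputable def aseq (n j : ℕ) : ℝ :=
  n * ∑ k ∈ range n, if n ≤ j + (k + 1) ∧ j < n + (k + 1) then 1 / ((k : ℝ) + 1) else 0

lemma aseq_nonneg (n j : ℕ) : 0 ≤ aseq n j := by
  unfold aseq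
  refine mul_nonneg (Nat.cast_nonneg _) (Finset.sum_nonneg fun k _ => ?_)
  split_ifs
  · positivity
  · exact le_rfl

lemma aseq_zero (n j : ℕ) (h : 2 * n ≤ j) : aseq n j = 0 := by
  unfold aseq
  rw [Finset.sum_eq_zero, mul_zero]
  intro k hk
  have := Finset.mem_range.1 hk
  rw [if_neg]
  omega

lemma aseq_at_zero (n : ℕ) (hn : 1 ≤ n) : aseq n 0 = 1 := by
  unfold aseq
  rw [Finset.sum_eq_single_of_mem (n - 1) (Finset.mem_range.2 (by omega))]
  · rw [if_pos (by omega)]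
    have : ((n - 1 : ℕ) : ℝ) + 1 = n := by
      rw [Nat.cast_sub hn]; simp
    rw [this]
    field_simp
  · intro b hb hbn
    have := Finset.mem_range.1 hb
    rw [if_neg]
    omega

lemma aseq_mid (n : ℕ) : n * Real.log (n + 1) ≤ aseq n n := by
  unfold aseq
  gcongr
  have h := log_add_one_le_harmonic n
  unfold harmonic at h
  push_cast at h
  refine h.trans (le_of_eq ?_)
  refine Finset.sum_congr rfl fun k hk => ?_
  rw [if_pos (by omega)]
  simp

lemma aseq_sum (n : ℕ) : ∑ j ∈ range (2 * n), aseq n j ≤ 2 * (n : ℝ) ^ 2 := by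
  unfold aseq
  rw [← Finset.mul_sum, Finset.sum_comm]
  have : ∀ k ∈ range n, ∑ j ∈ range (2 * n), (if n ≤ j + (k + 1) ∧ j < n + (k + 1) then 1 / ((k : ℝ) + 1) else 0) ≤ 2 := by
    intro k hk
    have hk' := Finset.mem_range.1 hk
    rw [← Finset.sum_filter, Finset.sum_const, nsmul_eq_mul]
    have hsub : (filter (fun j => n ≤ j + (k + 1) ∧ j < n + (k + 1)) (range (2 * n))) ⊆ Finset.Ico (n - (k + 1)) (n + (k + 1)) := by
      intro j hj
      simp only [Finset.mem_filter, Finset.mem_range, Finset.mem_Ico] at hj ⊢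
      omega
    have hc := Finset.card_le_card hsub
    rw [Nat.card_Ico] at hc
    have hc2 : ((filter (fun j => n ≤ j + (k + 1) ∧ j < n + (k + 1)) (range (2 * n))).card : ℝ) ≤ 2 * ((k : ℝ) + 1) := by
      have : (filter (fun j => n ≤ j + (k + 1) ∧ j < n + (k + 1)) (range (2 * n))).card ≤ 2 * (k + 1) := by omega
      exact_mod_cast this
    calc _ ≤ 2 * ((k : ℝ) + 1) * (1 / ((k : ℝ) + 1)) := by gcongr
      _ = 2 := by field_simp
  calc (n : ℝ) * ∑ k ∈ range n, ∑ j ∈ range (2 * n), (if n ≤ j + (k + 1) ∧ j < n + (k + 1) then 1 / ((k : ℝ) + 1) else 0)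
      ≤ n * ∑ k ∈ range n, (2 : ℝ) := by
        gcongr with k hk
        exact this k hk
    _ = 2 * (n : ℝ) ^ 2 := by simp; ring

lemma geo_filter (n l K : ℕ) (hK : K ≤ n) (w : ℂ) :
    (1 - w) * ∑ i ∈ range (2 * n), (if n ≤ (l + i) + K ∧ l + i < n + K then w ^ i else 0)
      = w ^ (n - (K + l)) - w ^ (n + K - l) := by
  rw [← Finset.sum_filter]
  have hs : filter (fun i => n ≤ (l + i) + K ∧ l + i < n + K) (range (2 * n)) = Finset.Ico (n - (K + l)) (n + K - l) := by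
    ext i
    simp only [Finset.mem_filter, Finset.mem_range, Finset.mem_Ico]
    omega
  rw [hs]
  by_cases h : n - (K + l) ≤ n + K - l
  · rw [Finset.sum_Ico_eq_sub _ h, mul_sub, mul_neg_geom_sum, mul_neg_geom_sum]
    ring
  · omega

lemma G_formula (n l : ℕ) (w : ℂ) :
    (1 - w) * ∑ i ∈ range (2 * n), w ^ i * (aseq n (l + i) : ℂ)
      = n * ∑ k ∈ range n, ((1 / ((k : ℝ) + 1) : ℝ) : ℂ) * (w ^ (n - ((k + 1) + l)) - w ^ (n + (k + 1) - l)) := by
  unfold aseq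
  have : ∀ i, w ^ i * ((((n : ℝ) * ∑ k ∈ range n, if n ≤ l + i + (k + 1) ∧ l + i < n + (k + 1) then 1 / ((k : ℝ) + 1) else 0 : ℝ)) : ℂ)
      = n * ∑ k ∈ range n, ((1 / ((k : ℝ) + 1) : ℝ) : ℂ) * (if n ≤ l + i + (k + 1) ∧ l + i < n + (k + 1) then w ^ i else 0) := by
    intro i
    rw [Complex.ofReal_mul, Complex.ofReal_sum, mul_left_comm, Finset.mul_sum]
    congr 1
    refine Finset.sum_congr rfl fun k _ => ?_
    split_ifs
    · ring
    · simp
  simp_rw [this]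
  rw [← Finset.mul_sum, mul_left_comm]
  congr 1
  rw [Finset.sum_comm, Finset.mul_sum]
  refine Finset.sum_congr rfl fun k hk => ?_
  have hk' := Finset.mem_range.1 hk
  rw [← Finset.mul_sum, mul_left_comm, geo_filter n l (k + 1) (by omega)]

lemma G_bound (n l : ℕ) (w : ℂ) (hw : ‖w‖ ≤ 1) :
    ‖(1 - w) * ∑ i ∈ range (2 * n), w ^ i * (aseq n (l + i) : ℂ)‖ ≤ 2 * aseq n l + 6 * n := by
  rw [G_formula, norm_mul, Complex.norm_natCast]
  have hpow : ∀ q, ‖w ^ q‖ ≤ 1 := fun q => by rw [norm_pow]; exact pow_le_one₀ (norm_nonneg _) hw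
  have key : ‖∑ k ∈ range n, ((1 / ((k : ℝ) + 1) : ℝ) : ℂ) * (w ^ (n - ((k + 1) + l)) - w ^ (n + (k + 1) - l))‖
      ≤ 2 * (∑ k ∈ range n, if n ≤ l + (k + 1) ∧ l < n + (k + 1) then 1 / ((k : ℝ) + 1) else 0) + 6 := by
    -- separate the indices
    have hsplit : ∑ k ∈ range n, ((1 / ((k : ℝ) + 1) : ℝ) : ℂ) * (w ^ (n - ((k + 1) + l)) - w ^ (n + (k + 1) - l))
      = ∑ k ∈ range n, (if n < l + (k + 1) ∧ l < n + (k + 1) then ((1 / ((k : ℝ) + 1) : ℝ) : ℂ) * (w ^ (n - ((k + 1) + l)) - w ^ (n + (k + 1) - l)) else 0)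
       + ∑ k ∈ range n, (if n < l + (k + 1) then 0 else ((1 / ((k : ℝ) + 1) : ℝ) : ℂ) * (w ^ ((n - l) - (k + 1)) - w ^ ((n - l) + (k + 1)))) := by
      rw [← Finset.sum_add_distrib]
      refine Finset.sum_congr rfl fun k hk => ?_
      have hk' := Finset.mem_range.1 hk
      by_cases h1 : n < l + (k + 1)
      · by_cases h2 : l < n + (k + 1)
        · simp [h1, h2]
        · have e1 : n - ((k + 1) + l) = 0 := by omega
          have e2 : n + (k + 1) - l = 0 := by omega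
          simp [h1, h2, e1, e2]
      · have e1 : n - ((k + 1) + l) = (n - l) - (k + 1) := by omega
        have e2 : n + (k + 1) - l = (n - l) + (k + 1) := by omega
        simp [h1, e1, e2]
    rw [hsplit]
    refine (norm_add_le _ _).trans ?_
    gcongr
    · rw [Finset.mul_sum]
      refine (norm_sum_le _ _).trans (Finset.sum_le_sum fun k hk => ?_)
      split_ifs with h h' h'
      · rw [norm_mul, Complex.norm_real, Real.norm_of_nonneg (by positivity)]
        have : ‖w ^ (n - ((k + 1) + l)) - w ^ (n + (k + 1) - l)‖ ≤ 2 := by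
          refine (norm_sub_le _ _).trans ?_
          linarith [hpow (n - ((k + 1) + l)), hpow (n + (k + 1) - l)]
        calc _ ≤ 1 / ((k : ℝ) + 1) * 2 := by gcongr
          _ = _ := by ring
      · omega
      · simp only [norm_zero]; positivity
      · simp
    · have : ∑ k ∈ range n, (if n < l + (k + 1) then 0 else ((1 / ((k : ℝ) + 1) : ℝ) : ℂ) * (w ^ ((n - l) - (k + 1)) - w ^ ((n - l) + (k + 1))))
        = ∑ k ∈ range (n - l), ((1 / ((k : ℝ) + 1) : ℝ) : ℂ) * (w ^ ((n - l) - (k + 1)) - w ^ ((n - l) + (k + 1))) := by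
        rw [← Finset.sum_subset (s₁ := range (n - l)) (s₂ := range n)]
        · refine Finset.sum_congr rfl fun k hk => ?_
          have hk' := Finset.mem_range.1 hk
          rw [if_neg (by omega)]
        · intro k hk
          rw [Finset.mem_range] at *
          omega
        · intro k hk hk2
          rw [Finset.mem_range] at *
          rw [if_pos (by omega)]
      rw [this]
      exact fejer_bound w hw (n - l)
  calc (n : ℝ) * _ ≤ n * (2 * (∑ k ∈ range n, if n ≤ l + (k + 1) ∧ l < n + (k + 1) then 1 / ((k : ℝ) + 1) else 0) + 6) := by gcongr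
    _ = 2 * aseq n l + 6 * n := by unfold aseq; ring

/-- sequences supported on `[0,m)` -/
def V (m : ℕ) : Submodule ℂ (ℕ → ℂ) where
  carrier := {x | ∀ j, m ≤ j → x j = 0}
  add_mem' := by
    intro a b ha hb j hj
    simp [ha j hj, hb j hj]
  zero_mem' := by intro j _; rfl
  smul_mem' := by
    intro c x hx j hj
    simp [hx j hj]

instance (m : ℕ) : FiniteDimensional ℂ (V m) := by
  let f : V m →ₗ[ℂ] (Fin m → ℂ) :=
    { toFun := fun x i => x.1 i
      map_add' := by intro x y; rfl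
      map_smul' := by intro c x; rfl }
  refine FiniteDimensional.of_injective f ?_
  intro x y hxy
  ext j
  by_cases hj : j < m
  · exact congrFun hxy ⟨j, hj⟩
  · rw [x.2 j (not_lt.1 hj), y.2 j (not_lt.1 hj)]

/-- backward shift -/
def S (m : ℕ) : V m →ₗ[ℂ] V m where
  toFun x := ⟨fun j => x.1 (j + 1), fun j hj => x.2 _ (by omega)⟩
  map_add' := by intro x y; rfl
  map_smul' := by intro c x; rfl

lemma S_pow (m k : ℕ) (x : V m) (j : ℕ) : ((S m ^ k) x).1 j = x.1 (j + k) := by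
  induction k generalizing x j with
  | zero => simp
  | succ n ih =>
    rw [pow_succ']
    change ((S m ^ n) x).1 (j + 1) = _
    rw [ih, show j + 1 + n = j + (n + 1) by omega]

lemma S_pow_top (m : ℕ) : S m ^ m = 0 := by
  ext x j
  rw [S_pow, x.2 _ (by omega)]
  rfl

/-- `(1-w)(1-wS)⁻¹` -/
noncomputable def R (m : ℕ) (w : ℂ) : V m →ₗ[ℂ] V m := (1 - w) • ∑ i ∈ range m, (w • S m) ^ i

lemma R_apply (m : ℕ) (w : ℂ) (x : V m) (l : ℕ) :
    (R m w x).1 l = (1 - w) * ∑ i ∈ range m, w ^ i * x.1 (l + i) := by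
  unfold R
  rw [LinearMap.smul_apply, Submodule.coe_smul, Pi.smul_apply, smul_eq_mul, LinearMap.sum_apply,
    Submodule.coe_sum, Finset.sum_apply]
  congr 1
  refine Finset.sum_congr rfl fun i _ => ?_
  rw [smul_pow, LinearMap.smul_apply, Submodule.coe_smul, Pi.smul_apply, smul_eq_mul, S_pow]

lemma R_mul1 (m : ℕ) (w : ℂ) : (1 - w • S m) * (∑ i ∈ range m, (w • S m) ^ i) = 1 := by
  have h := mul_neg_geom_sum (w • S m : Module.End ℂ (V m)) m
  rw [smul_pow, S_pow_top, smul_zero] at h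
  exact h.trans (sub_zero (1 : Module.End ℂ (V m)))

lemma R_mul2 (m : ℕ) (w : ℂ) : (∑ i ∈ range m, (w • S m) ^ i) * (1 - w • S m) = 1 := by
  have h := geom_sum_mul_neg (w • S m : Module.End ℂ (V m)) m
  rw [smul_pow, S_pow_top, smul_zero] at h
  exact h.trans (sub_zero (1 : Module.End ℂ (V m)))

abbrev K := Metric.closedBall (0 : ℂ) 1

abbrev E (m : ℕ) := ℂ × ℂ × PiLp 1 (fun _ : Fin m => ℂ)

/-- the embedding defining the norm -/
noncomputable def Phi (m : ℕ) (B : ℝ) : V m →ₗ[ℂ] C(K, E m) where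
  toFun x :=
    { toFun := fun w => (x.1 0, ((B⁻¹ : ℝ) : ℂ) * (R m w.1 x).1 0,
        WithLp.toLp 1 (fun i : Fin m => ((2 / B ^ 2 : ℝ) : ℂ) * (R m w.1 x).1 i))
      continuous_toFun := by
        simp only [R_apply]
        refine continuous_const.prodMk (Continuous.prodMk (by fun_prop) ?_)
        refine (PiLp.continuous_toLp 1 _).comp ?_
        fun_prop }
  map_add' x y := by
    ext w
    · simp
    · simp [mul_add]
    · simp [mul_add]
  map_smul' c x := by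
    ext w
    · simp
    · simp; ring
    · simp; ring

lemma Phi_norm_le (m : ℕ) (B c : ℝ) (hB : 0 < B) (hc : 0 ≤ c) (x : V m) (h1 : ‖x.1 0‖ ≤ c)
    (h2 : ∀ w : ℂ, ‖w‖ ≤ 1 → ‖(R m w x).1 0‖ ≤ B * c)
    (h3 : ∀ w : ℂ, ‖w‖ ≤ 1 → ∑ i ∈ range m, ‖(R m w x).1 i‖ ≤ B ^ 2 / 2 * c) : ‖Phi m B x‖ ≤ c := by
  rw [ContinuousMap.norm_le _ hc]
  intro w
  have hw : ‖w.1‖ ≤ 1 := mem_closedBall_zero_iff.1 w.2
  change ‖((x.1 0, ((B⁻¹ : ℝ) : ℂ) * (R m w.1 x).1 0,
        WithLp.toLp 1 (fun i : Fin m => ((2 / B ^ 2 : ℝ) : ℂ) * (R m w.1 x).1 i)) : E m)‖ ≤ c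
  rw [Prod.norm_mk, Prod.norm_mk]
  refine max_le h1 (max_le ?_ ?_)
  · rw [norm_mul, Complex.norm_real, Real.norm_of_nonneg (by positivity)]
    calc B⁻¹ * ‖(R m w.1 x).1 0‖ ≤ B⁻¹ * (B * c) := by gcongr; exact h2 _ hw
      _ = c := by field_simp
  · rw [PiLp.norm_eq_of_L1]
    simp only [norm_mul]
    rw [← Finset.mul_sum, Complex.norm_real, Real.norm_of_nonneg (by positivity),
      Fin.sum_univ_eq_sum_range (fun i => ‖(R m w.1 x).1 i‖)]
    calc 2 / B ^ 2 * ∑ i ∈ range m, ‖(R m w.1 x).1 i‖ ≤ 2 / B ^ 2 * (B ^ 2 / 2 * c) := by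
          gcongr; exact h3 _ hw
      _ = c := by field_simp

lemma le_Phi_norm (m : ℕ) (B : ℝ) (hB : 0 < B) (x : V m) (w : ℂ) (hw : ‖w‖ ≤ 1) :
    ‖x.1 0‖ ≤ ‖Phi m B x‖ ∧ ‖(R m w x).1 0‖ ≤ B * ‖Phi m B x‖ ∧
      ∑ i ∈ range m, ‖(R m w x).1 i‖ ≤ B ^ 2 / 2 * ‖Phi m B x‖ := by
  have h := ContinuousMap.norm_coe_le_norm (Phi m B x) ⟨w, mem_closedBall_zero_iff.2 hw⟩
  change ‖((x.1 0, ((B⁻¹ : ℝ) : ℂ) * (R m w x).1 0,
        WithLp.toLp 1 (fun i : Fin m => ((2 / B ^ 2 : ℝ) : ℂ) * (R m w x).1 i)) : E m)‖ ≤ _ at h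
  rw [Prod.norm_mk, Prod.norm_mk, max_le_iff, max_le_iff] at h
  obtain ⟨h1, h2, h3⟩ := h
  refine ⟨h1, ?_, ?_⟩
  · rw [norm_mul, Complex.norm_real, Real.norm_of_nonneg (by positivity)] at h2
    calc ‖(R m w x).1 0‖ = B * (B⁻¹ * ‖(R m w x).1 0‖) := by field_simp
      _ ≤ _ := by gcongr
  · rw [PiLp.norm_eq_of_L1] at h3
    simp only [norm_mul] at h3
    rw [← Finset.mul_sum, Complex.norm_real, Real.norm_of_nonneg (by positivity),
      Fin.sum_univ_eq_sum_range (fun i => ‖(R m w x).1 i‖)] at h3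
    calc ∑ i ∈ range m, ‖(R m w x).1 i‖ = B ^ 2 / 2 * (2 / B ^ 2 * ∑ i ∈ range m, ‖(R m w x).1 i‖) := by
          field_simp
      _ ≤ _ := by gcongr

lemma Phi_inj (m : ℕ) (hm : 0 < m) (B : ℝ) (hB : 0 < B) : Function.Injective (Phi m B) := by
  rw [injective_iff_map_eq_zero]
  intro x hx
  have h := (le_Phi_norm m B hB x 0 (by simp)).2.2
  rw [hx, norm_zero, mul_zero] at h
  ext j
  by_cases hj : j < m
  · have h2 := Finset.single_le_sum (f := fun i => ‖(R m 0 x).1 i‖) (fun i _ => norm_nonneg _) (Finset.mem_range.2 hj)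
    have h3 : ‖(R m 0 x).1 j‖ ≤ 0 := h2.trans h
    have h4 : (R m 0 x).1 j = 0 := norm_le_zero_iff.1 h3
    rw [R_apply] at h4
    rw [Finset.sum_eq_single_of_mem 0 (Finset.mem_range.2 hm)] at h4
    · simpa using h4
    · intro b _ hb
      simp [hb]
  · rw [x.2 j (not_lt.1 hj)]; rfl

lemma R_l1 (m : ℕ) (w : ℂ) (hw : ‖w‖ ≤ 1) (x : V m) :
    ∀ l, ‖(R m w x).1 l‖ ≤ 2 * ∑ i ∈ range m, ‖x.1 (l + i)‖ := by
  intro l
  rw [R_apply, norm_mul]
  have h1 : ‖1 - w‖ ≤ 2 := by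
    refine (norm_sub_le _ _).trans ?_
    rw [norm_one]; linarith
  gcongr
  refine (norm_sum_le _ _).trans (Finset.sum_le_sum fun i _ => ?_)
  rw [norm_mul, norm_pow]
  calc _ ≤ 1 * ‖x.1 (l + i)‖ := by
        gcongr
        exact pow_le_one₀ (norm_nonneg _) hw
    _ = _ := one_mul _

lemma tail_sum (m : ℕ) (x : V m) (l : ℕ) : ∑ i ∈ range m, ‖x.1 (l + i)‖ ≤ ∑ i ∈ range m, ‖x.1 i‖ := by
  have h1 : ∑ i ∈ range m, ‖x.1 (l + i)‖ ≤ ∑ i ∈ range (l + m), ‖x.1 i‖ := by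
    rw [Finset.sum_range_add]
    exact le_add_of_nonneg_left (Finset.sum_nonneg fun _ _ => norm_nonneg _)
  refine h1.trans (le_of_eq ?_)
  rw [add_comm l m, Finset.sum_range_add]
  rw [Finset.sum_eq_zero (s := range l), add_zero]
  intro i _
  rw [x.2 _ (by omega), norm_zero]

lemma R_bound (m : ℕ) (B : ℝ) (hB : 0 < B) (hmB : 2 * m ≤ B) (w : ℂ) (hw : ‖w‖ ≤ 1) (x : V m) :
    ‖Phi m B (R m w x)‖ ≤ B * ‖Phi m B x‖ := by
  obtain ⟨h1, h2, h3⟩ := le_Phi_norm m B hB x w hw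
  refine Phi_norm_le m B _ hB (by positivity) _ h2 ?_ ?_
  · intro w' hw'
    refine (R_l1 m w' hw' _ 0).trans ?_
    simp only [zero_add]
    nlinarith
  · intro w' hw'
    calc ∑ i ∈ range m, ‖(R m w' (R m w x)).1 i‖
        ≤ ∑ i ∈ range m, 2 * ∑ j ∈ range m, ‖(R m w x).1 j‖ := by
          refine Finset.sum_le_sum fun i _ => ?_
          refine (R_l1 m w' hw' _ i).trans ?_
          exact mul_le_mul_of_nonneg_left (tail_sum m _ i) (by norm_num)
      _ = 2 * m * ∑ j ∈ range m, ‖(R m w x).1 j‖ := by simp; ring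
      _ ≤ B * (B ^ 2 / 2 * ‖Phi m B x‖) := by gcongr
      _ = B ^ 2 / 2 * (B * ‖Phi m B x‖) := by ring

/-- the vector -/
noncomputable def avec (n : ℕ) : V (2 * n) := ⟨fun j => (aseq n j : ℂ), fun j hj => by
  change ((aseq n j : ℝ) : ℂ) = 0
  rw [aseq_zero n j hj]; simp⟩

lemma avec_norm (n : ℕ) (hn : 1 ≤ n) : ‖Phi (2 * n) (8 * n) (avec n)‖ ≤ 1 := by
  have hn' : (1:ℝ) ≤ n := by exact_mod_cast hn
  refine Phi_norm_le _ _ 1 (by positivity) zero_le_one _ ?_ ?_ ?_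
  · change ‖((aseq n 0 : ℝ) : ℂ)‖ ≤ 1
    rw [aseq_at_zero n hn]; simp
  · intro w hw
    rw [R_apply]
    have := G_bound n 0 w hw
    rw [aseq_at_zero n hn] at this
    refine this.trans ?_
    linarith
  · intro w hw
    calc ∑ i ∈ range (2 * n), ‖(R (2 * n) w (avec n)).1 i‖
        ≤ ∑ i ∈ range (2 * n), (2 * aseq n i + 6 * n) := by
          refine Finset.sum_le_sum fun i _ => ?_
          rw [R_apply]
          exact G_bound n i w hw
      _ = 2 * ∑ i ∈ range (2 * n), aseq n i + 12 * (n : ℝ) ^ 2 := by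
          rw [Finset.sum_add_distrib, ← Finset.mul_sum]; simp; ring
      _ ≤ 2 * (2 * (n : ℝ) ^ 2) + 12 * (n : ℝ) ^ 2 := by gcongr; exact aseq_sum n
      _ ≤ (8 * (n : ℝ)) ^ 2 / 2 * 1 := by nlinarith

lemma main_lower (n : ℕ) (hn : 1 ≤ n) :
    ENNReal.ofReal (n * Real.log (n + 1)) ≤ phiFin (8 * n) := by
  have hn' : (1:ℝ) ≤ n := by exact_mod_cast hn
  have hB : (0:ℝ) < 8 * n := by positivity
  have hinv : ∀ z : ℂ, 1 < ‖z‖ → z ≠ 0 := by
    intro z hz h
    rw [h, norm_zero] at hz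
    linarith
  have hS : ∀ z : ℂ, 1 < ‖z‖ → (z • (1 : V (2 * n) →ₗ[ℂ] V (2 * n)) - S (2 * n)) = z • (1 - z⁻¹ • S (2 * n)) := by
    intro z hz
    have h := smul_sub z (1 : Module.End ℂ (V (2 * n))) (z⁻¹ • S (2 * n))
    rw [smul_smul, mul_inv_cancel₀ (hinv z hz), one_smul] at h
    exact h.symm
  have key := le_phiFin (Phi (2 * n) (8 * n)) (Phi_inj (2 * n) (by omega) _ hB) (S (2 * n)) (8 * n) hB.le
    (fun z => z⁻¹ • ∑ i ∈ range (2 * n), (z⁻¹ • S (2 * n)) ^ i) ?_ ?_ ?_ (avec n) (avec_norm n hn) n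
  · refine le_trans ?_ key
    apply ENNReal.ofReal_le_ofReal
    refine le_trans ?_ (le_Phi_norm (2 * n) (8 * n) hB _ 0 (by simp)).1
    rw [S_pow]
    change _ ≤ ‖((aseq n (0 + n) : ℝ) : ℂ)‖
    rw [Complex.norm_real, Real.norm_of_nonneg (aseq_nonneg _ _), zero_add]
    exact aseq_mid n
  · intro z hz
    rw [hS z hz, smul_mul_smul_comm, mul_inv_cancel₀ (hinv z hz), one_smul, R_mul1]
  · intro z hz
    rw [hS z hz, smul_mul_smul_comm, inv_mul_cancel₀ (hinv z hz), one_smul, R_mul2]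
  · intro z hz v
    have : (z - 1) • (z⁻¹ • ∑ i ∈ range (2 * n), (z⁻¹ • S (2 * n)) ^ i) v = R (2 * n) z⁻¹ v := by
      unfold R
      rw [LinearMap.smul_apply, smul_smul, LinearMap.smul_apply]
      congr 1
      rw [sub_mul, mul_inv_cancel₀ (hinv z hz), one_mul]
    rw [this]
    refine R_bound (2 * n) (8 * n) hB ?_ z⁻¹ ?_ v
    · push_cast; nlinarith
    · rw [norm_inv]
      exact inv_le_one_of_one_le₀ hz.le

lemma phiFin_mono {C D : ℝ} (h : C ≤ D) : phiFin C ≤ phiFin D := by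
  unfold phiFin
  refine iSup_mono fun X => iSup_mono fun _ => iSup_mono fun _ => iSup_mono fun _ => iSup_mono fun T =>
    iSup_mono fun _ => ?_
  refine iSup_le fun hT => ?_
  exact le_iSup_of_le (hT.trans (ENNReal.ofReal_le_ofReal h)) le_rfl

lemma phiFin_le_phi (C : ℝ) : phiFin C ≤ phi C := by
  unfold phiFin phi
  refine iSup_mono fun X => iSup_mono fun _ => iSup_mono fun _ => ?_
  refine iSup_le fun hX => ?_
  exact le_iSup_of_le (FiniteDimensional.complete ℂ X) le_rfl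

theorem main : ∃ c : ℝ, 0 < c ∧ ∃ C₀ : ℝ, 1 ≤ C₀ ∧ ∀ C : ℝ, C₀ ≤ C →
    ENNReal.ofReal (c * C * Real.log (1 + C)) ≤ phiFin C := by
  refine ⟨1 / 32, by norm_num, 65, by norm_num, fun C hC => ?_⟩
  set n := ⌊C / 8⌋₊ with hn
  have h1 : (n : ℝ) ≤ C / 8 := Nat.floor_le (by linarith)
  have h2 : C / 8 < n + 1 := Nat.lt_floor_add_one _
  have hn1 : 1 ≤ n := by
    rw [hn, Nat.one_le_floor_iff]
    linarith
  refine le_trans ?_ ((main_lower n hn1).trans (phiFin_mono (by linarith)))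
  apply ENNReal.ofReal_le_ofReal
  have h3 : C / 16 ≤ n := by linarith
  have h4 : Real.log (1 + C) / 2 ≤ Real.log (n + 1) := by
    have h5 : Real.log (1 + C) ≤ Real.log ((n + 1 : ℝ) ^ 2) := by
      apply Real.log_le_log (by linarith)
      nlinarith
    rw [Real.log_pow] at h5
    push_cast at h5
    linarith
  have h6 : 0 ≤ Real.log (1 + C) := Real.log_nonneg (by linarith)
  calc 1 / 32 * C * Real.log (1 + C) = (C / 16) * (Real.log (1 + C) / 2) := by ring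
    _ ≤ n * Real.log (n + 1) := by gcongr

/-- Both questions: the bound `K C log (1 + C)` is optimal, over all complex Banach spaces (Q1) and
already over finite-dimensional ones (Q2). -/
theorem result :
    (∃ c : ℝ, 0 < c ∧ ∃ C₀ : ℝ, 1 ≤ C₀ ∧ ∀ C : ℝ, C₀ ≤ C →
      ENNReal.ofReal (c * C * Real.log (1 + C)) ≤ phi C) ∧
    (∃ c : ℝ, 0 < c ∧ ∃ C₀ : ℝ, 1 ≤ C₀ ∧ ∀ C : ℝ, C₀ ≤ C →
      ENNReal.ofReal (c * C * Real.log (1 + C)) ≤ phiFin C) := by
  obtain ⟨c, hc, C₀, hC₀, h⟩ := main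
  exact ⟨⟨c, hc, C₀, hC₀, fun C hC => (h C hC).trans (phiFin_le_phi C)⟩, ⟨c, hc, C₀, hC₀, h⟩⟩

end Pool.Agent.Results.MP_600649_an.RittOptimal
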